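import Pool.Agent.Q55.KY.Stm

/-!
# Project KY (helper55), job ORD
-/

set_option autoImplicit false

namespace Pool.Agent.Q182.KY

open Pool.Agent.Q55.KY

section

variable {R I X : Type} [AddCommGroup X] (D : Dat R I X)

theorem s_sub_smul (β : R) (x y : X) (n : ℤ) :
    D.s β (x - n • y) = D.s β x - n • D.s β y := by
  simp only [Dat.s, map_sub, map_smul, smul_eq_mul]
  module

variable {D} (hA : D.Ax)

include hA

theorem cts (β : R) (x : X) : D.ct β (D.s β x) = - D.ct β x := by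
  simp only [Dat.s, map_sub, map_smul, smul_eq_mul, hA.two]
  ring

theorem ss (β : R) (x : X) : D.s β (D.s β x) = x := by
  have h1 := cts hA β x
  rw [Dat.s, h1, Dat.s]
  module

theorem s_inj (β : R) : Function.Injective (D.s β) := fun x y h => by
  rw [← ss hA β x, h, ss hA β y]

theorem s_rt (β : R) : D.s β (D.rt β) = - D.rt β := by
  rw [Dat.s, hA.two]
  module

theorem cj (i : I) (β : R) (hβ : β ≠ D.sm i) : ∃ β', ∀ x, D.ct β' (D.s (D.sm i) x) = D.ct β x ∧
    D.s β' (D.s (D.sm i) x) = D.s (D.sm i) (D.s β x) := by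
  obtain ⟨β', -, h1, h2⟩ := hA.simple i β hβ
  refine ⟨β', fun x => ?_⟩
  have h3 : D.ct β' (D.s (D.sm i) x) = D.ct β x := by rw [h2, ss hA]
  refine ⟨h3, ?_⟩
  have h4 : D.s β' (D.s (D.sm i) x) =
      D.s (D.sm i) x - D.ct β' (D.s (D.sm i) x) • D.rt β' := rfl
  rw [h4, h3, h1, ← s_sub_smul]
  rfl

theorem mon [Finite R] (γ : R) (x : X) (hx : 0 < D.ct γ x) : D.ell x < D.ell (D.s γ x) := by
  classical
  choose b hb using hA.refl γ
  let P : R → Prop := fun β => D.rt (b β) = D.s γ (D.rt β) ∧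
    ∀ x, D.ct (b β) x = D.ct β (D.s γ x)
  let f : R → R := fun β => if P β then b β else β
  have hf1 : ∀ β, P β → f β = b β := fun β h => if_pos h
  have hf2 : ∀ β, ¬ P β → f β = β := fun β h => if_neg h
  have hP : ∀ β, ¬ P β → D.rt (b β) = - D.s γ (D.rt β) := fun β h => ((hb β).resolve_left h).1
  have hrt : ∀ β, D.s γ (D.s γ (D.rt β)) = D.rt β := fun β => ss hA γ _
  -- second type against first type
  have hmix : ∀ β₁ β₂, P β₁ → ¬ P β₂ → b β₁ ≠ β₂ := by
    intro β₁ β₂ h1 h2 h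
    have h3 := hP β₂ h2
    rw [← h, h1.1, hrt] at h3
    exact hA.pos _ _ h3
  have hfinj : Function.Injective f := by
    intro β₁ β₂ h
    by_cases h1 : P β₁
    · by_cases h2 : P β₂
      · rw [hf1 _ h1, hf1 _ h2] at h
        apply hA.inj
        apply s_inj hA γ
        rw [← h1.1, ← h2.1, h]
      · rw [hf1 _ h1, hf2 _ h2] at h
        exact (hmix _ _ h1 h2 h).elim
    · by_cases h2 : P β₂
      · rw [hf2 _ h1, hf1 _ h2] at h
        exact (hmix _ _ h2 h1 h.symm).elim
      · rw [hf2 _ h1, hf2 _ h2] at h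
        exact h
  have hmaps : ∀ β, D.ct β x < 0 → D.ct (f β) (D.s γ x) < 0 := by
    intro β hβ
    by_cases h1 : P β
    · rw [hf1 _ h1, h1.2, ss hA]
      exact hβ
    · rw [hf2 _ h1]
      have h2 := hA.sign _ _ (hA.negr _ _ _ (hP β h1))
      have h3 : D.ct β (D.s γ x) = D.ct β x - D.ct γ x * D.ct β (D.rt γ) := by
        simp only [Dat.s, map_sub, map_smul, smul_eq_mul]
      rw [h3]
      have h4 := mul_pos hx h2
      linarith
  have hγ : γ ∉ f '' {β | D.ct β x < 0} := by
    rintro ⟨β, hβ, h⟩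
    by_cases h1 : P β
    · rw [hf1 _ h1] at h
      have h2 := h1.1
      rw [h] at h2
      have h3 : D.rt β = - D.rt γ := by
        rw [← hrt β, ← h2, s_rt hA]
      exact hA.pos _ _ h3
    · rw [hf2 _ h1] at h
      subst h
      have hβ : D.ct β x < 0 := hβ
      linarith
  have hsub : insert γ (f '' {β | D.ct β x < 0}) ⊆ {β | D.ct β (D.s γ x) < 0} := by
    intro β hβ
    rcases hβ with rfl | ⟨β', hβ', rfl⟩
    · show D.ct β (D.s β x) < 0
      rw [cts hA]
      linarith
    · exact hmaps β' hβ'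
  have h1 := Set.ncard_le_ncard hsub (Set.toFinite _)
  rw [Set.ncard_insert_of_notMem hγ (Set.toFinite _),
    Set.ncard_image_of_injective _ hfinj] at h1
  exact h1

theorem up [Finite R] (i : I) (x : X) (hx : 0 < D.ct (D.sm i) x) :
    D.ell (D.s (D.sm i) x) = D.ell x + 1 := by
  classical
  have h1 := mon hA (D.sm i) x hx
  have h2 : D.ell (D.s (D.sm i) x) ≤ D.ell x + 1 := by
    have hg : ∀ β, ∃ β', β ≠ D.sm i → D.rt β' = D.s (D.sm i) (D.rt β) ∧
        ∀ x, D.ct β' x = D.ct β (D.s (D.sm i) x) := by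
      intro β
      by_cases h : β = D.sm i
      · exact ⟨β, fun h' => absurd h h'⟩
      · obtain ⟨β', -, h3, h4⟩ := hA.simple i β h
        exact ⟨β', fun _ => ⟨h3, h4⟩⟩
    choose g hg using hg
    have h3 : {β | D.ct β (D.s (D.sm i) x) < 0} ⊆
        insert (D.sm i) ({β | D.ct β (D.s (D.sm i) x) < 0} \ {D.sm i}) := by
      intro β hβ
      by_cases h : β = D.sm i
      · exact Or.inl h
      · exact Or.inr ⟨hβ, h⟩
    have h4 : ({β | D.ct β (D.s (D.sm i) x) < 0} \ {D.sm i}).ncard ≤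
        {β | D.ct β x < 0}.ncard := by
      apply Set.ncard_le_ncard_of_injOn g
      · rintro β ⟨hβ, hβ'⟩
        show D.ct (g β) x < 0
        rw [(hg β hβ').2]
        exact hβ
      · rintro β ⟨-, hβ⟩ β' ⟨-, hβ'⟩ h
        apply hA.inj
        apply s_inj hA (D.sm i)
        rw [← (hg β hβ).1, ← (hg β' hβ').1, h]
    calc D.ell (D.s (D.sm i) x) ≤
        (insert (D.sm i) ({β | D.ct β (D.s (D.sm i) x) < 0} \ {D.sm i})).ncard :=
          Set.ncard_le_ncard h3 (Set.toFinite _)
      _ ≤ ({β | D.ct β (D.s (D.sm i) x) < 0} \ {D.sm i}).ncard + 1 := Set.ncard_insert_le _ _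
      _ ≤ D.ell x + 1 := Nat.add_le_add_right h4 1
  omega

theorem ant [Finite R] (x y : X) (h : D.Le x y) : x = y ∨ D.ell x < D.ell y := by
  induction h with
  | refl => exact Or.inl rfl
  | @tail y1 y _ h2 ih =>
    obtain ⟨β, h3, rfl⟩ := h2
    have h4 := mon hA β y1 h3
    rcases ih with rfl | ih
    · exact Or.inr h4
    · exact Or.inr (ih.trans h4)

theorem z0 (i : I) (β : R) (x : X) (hβ : β ≠ D.sm i) (hx : 0 < D.ct β x) :
    D.Le (D.s (D.sm i) x) (D.s (D.sm i) (D.s β x)) := by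
  obtain ⟨β', h⟩ := cj hA i β hβ
  exact Relation.ReflTransGen.single ⟨β', by rw [(h x).1]; exact hx, ((h x).2).symm⟩

theorem s_of_zero (β : R) (x : X) (h : D.ct β x = 0) : D.s β x = x := by
  rw [Dat.s, h, zero_smul, sub_zero]

theorem z1 (i : I) (x y : X) (h : D.Le x y) (hy : D.ct (D.sm i) y ≤ 0) :
    D.Le (D.s (D.sm i) x) y := by
  induction h using Relation.ReflTransGen.head_induction_on with
  | refl =>
    rcases hy.eq_or_lt with h1 | h1
    · rw [s_of_zero hA _ _ h1]
      exact Relation.ReflTransGen.refl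
    · refine Relation.ReflTransGen.single ⟨D.sm i, ?_, (ss hA _ _).symm⟩
      rw [cts hA]
      linarith
  | @head x x1 h1 h2 ih =>
    obtain ⟨β, h3, rfl⟩ := h1
    by_cases hβ : β = D.sm i
    · subst hβ
      exact h2
    · exact (z0 hA i β x hβ h3).trans ih

theorem z2 (i : I) (x y : X) (h : D.Le x y) (hx : 0 ≤ D.ct (D.sm i) x) :
    D.Le x (D.s (D.sm i) y) := by
  induction h with
  | refl =>
    rcases hx.eq_or_lt with h1 | h1
    · rw [s_of_zero hA _ _ h1.symm]
      exact Relation.ReflTransGen.refl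
    · exact Relation.ReflTransGen.single ⟨D.sm i, h1, rfl⟩
  | @tail y1 y h1 h2 ih =>
    obtain ⟨β, h3, rfl⟩ := h2
    by_cases hβ : β = D.sm i
    · subst hβ
      rw [ss hA]
      exact h1
    · exact ih.trans (z0 hA i β y1 hβ h3)

end

theorem ord : S_Ord := by
  intro R I X _ _ D hA
  refine ⟨ss hA, cts hA, cj hA, mon hA, up hA, ant hA, z1 hA, z2 hA, ?_, ?_⟩
  · rintro lam hlam x ⟨l, rfl⟩
    induction l with
    | nil => exact Relation.ReflTransGen.refl
    | cons i l ih => exact z2 hA i _ _ ih (hlam i)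
  · intro lam hlam
    have h1 : ∀ β, 0 ≤ D.ct β lam := by
      intro β
      refine AddSubmonoid.closure_induction (motive := fun f _ => 0 ≤ f lam) ?_ ?_ ?_ (hA.ctn β)
      · rintro f ⟨i, rfl⟩
        exact hlam i
      · exact le_refl _
      · intro f g _ _ hf hg
        rw [LinearMap.add_apply]
        exact add_nonneg hf hg
    refine ⟨h1, ?_⟩
    have h3 : {β | D.ct β lam < 0} = ∅ := by
      ext β
      exact ⟨fun h => absurd h (not_lt.mpr (h1 β)), fun h => h.elim⟩
    show {β | D.ct β lam < 0}.ncard = 0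
    rw [h3, Set.ncard_empty]

end Pool.Agent.Q182.KY
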